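import Mathlib
import Pool.Agent.H75.LR.Stm
import Pool.Agent.H75.LR.Stm3
import Pool.Agent.H15.LR.Dens
import Pool.Agent.H15.LR.Ibp

/-! Project LR (helper75), module EN: the end of the proof. -/

open scoped Topology ContDiff Manifold
open Set Filter Pool.Agent.H826R2.WStmt Pool.Agent.W671.RStmt
open Pool.Agent.H75.PRStmt Pool.Agent.H75.PR Pool.Agent.H75.LR

noncomputable section

set_option maxSynthPendingDepth 3
set_option linter.unusedSectionVars false

namespace Pool.Agent.H61.LR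

universe u v

/-- the divergence of `√(c² + ε) V` -/
lemma loc {E : Type*} [NormedAddCommGroup E] [NormedSpace ℝ E] [FiniteDimensional ℝ E]
    {c : E → ℝ} {V : E → E} {z : E} {ε m ρ w : ℝ} (hε : 0 < ε)
    (hc : DifferentiableAt ℝ c z) (hV : DifferentiableAt ℝ V z)
    (h : divE (fun y => c y • V y) z = w * (m * c z * ρ)) :
    divE (fun y => Real.sqrt (c y ^ 2 + ε) • V y) z =
      w * (m * (ρ * (c z ^ 2 / Real.sqrt (c z ^ 2 + ε)))) +
        ε / Real.sqrt (c z ^ 2 + ε) * divE V z := by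
  have hpos : 0 < c z ^ 2 + ε := by positivity
  have hr : 0 < Real.sqrt (c z ^ 2 + ε) := Real.sqrt_pos.2 hpos
  have hsq : Real.sqrt (c z ^ 2 + ε) ^ 2 = c z ^ 2 + ε := Real.sq_sqrt hpos.le
  have h1 : HasFDerivAt (fun y => c y ^ 2 + ε) ((2 * c z) • fderiv ℝ c z) z := by
    have h2 := (hc.hasFDerivAt.pow 2).add_const ε
    simpa using h2
  have h2 := h1.sqrt hpos.ne'
  have h3 : fderiv ℝ (fun y => Real.sqrt (c y ^ 2 + ε)) z (V z) =
      c z / Real.sqrt (c z ^ 2 + ε) * fderiv ℝ c z (V z) := by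
    rw [h2.fderiv]
    simp only [FunLike.coe_smul, Pi.smul_apply, smul_eq_mul]
    field_simp
  rw [Pool.Agent.H15.LR.divE_smul hc hV] at h
  rw [Pool.Agent.H15.LR.divE_smul h2.differentiableAt hV, h3]
  have h4 : fderiv ℝ c z (V z) = w * (m * c z * ρ) - c z * divE V z := by linarith
  rw [h4]
  set r := Real.sqrt (c z ^ 2 + ε)
  have h5 : r * divE V z = (c z ^ 2 + ε) / r * divE V z := by
    rw [← hsq]; field_simp
  rw [h5]
  field_simp
  ring

/-! ### fields read in the charts -/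

section fields

variable {E : Type u} [NormedAddCommGroup E] [NormedSpace ℝ E] [FiniteDimensional ℝ E]
  {M : Type v} [TopologicalSpace M] [ChartedSpace E M] [IsManifold 𝓘(ℝ, E) ∞ M]

lemma Dsy_cVec (X : M → E) {p : M} {y : E} (hy : y ∈ (ch E p).target) :
    Dsy E p y (cVec X p y) = X ((ch E p).symm y) := by
  have h1 := D_symm_chart ((ch E p).map_target hy) (X ((ch E p).symm y))
  rw [(ch E p).right_inv hy] at h1
  exact h1

lemma cCov_cVec (θ : M → Cov E) (X : M → E) {p : M} {y : E} (hy : y ∈ (ch E p).target) :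
    cCov θ p y (cVec X p y) = ev (θ ((ch E p).symm y)) (X ((ch E p).symm y)) := by
  rw [cCov_apply, Dsy_cVec X hy]

lemma cVec_smul (f : M → ℝ) (X : M → E) (p : M) (y : E) :
    cVec (fun x => f x • X x) p y = f ((ch E p).symm y) • cVec X p y := by
  unfold cVec
  exact map_smul _ _ _

lemma cVec_sub_end (P : M → E →L[ℝ] E) (X : M → E) {p : M} {y : E} (hy : y ∈ (ch E p).target) :
    cVec (fun x => X x - P x (X x)) p y = cVec X p y - cEnd P p y (cVec X p y) := by
  rw [cEnd_apply, Dsy_cVec X hy]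
  unfold cVec
  exact map_sub _ _ _

lemma smoothVec_sub_end {P : M → E →L[ℝ] E} {X : M → E} (hX : SmoothVec X)
    (hP : ∀ p : M, ContDiffOn ℝ ∞ (cEnd P p) (ch E p).target) :
    SmoothVec (fun x => X x - P x (X x)) := by
  intro p
  exact ((hX p).sub ((hP p).clm_apply (hX p))).congr fun y hy => cVec_sub_end P X hy

/-- the one-form `θ - θ (R) α` -/
def thh (θ α : M → Cov E) (R : M → E) (x : M) : Cov E :=
  (show E →L[ℝ] ℝ from θ x) - ev (θ x) (R x) • (show E →L[ℝ] ℝ from α x)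

lemma ev_thh (θ α : M → Cov E) (R : M → E) (x : M) (u : E) :
    ev (thh θ α R x) u = ev (θ x) u - ev (θ x) (R x) * ev (α x) u := rfl

lemma cCov_thh (θ α : M → Cov E) (R : M → E) {p : M} {y : E} (hy : y ∈ (ch E p).target) :
    cCov (thh θ α R) p y = cCov θ p y - (cCov θ p y (cVec R p y)) • cCov α p y := by
  ext u
  rw [cCov_cVec θ R hy, cCov_apply, ev_thh]
  simp only [sub_apply, FunLike.coe_smul, Pi.smul_apply, smul_eq_mul]
  rw [cCov_apply, cCov_apply]

lemma smoothCov_thh {θ α : M → Cov E} {R : M → E} (hθ : SmoothCov θ) (hα : SmoothCov α)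
    (hR : SmoothVec R) : SmoothCov (thh θ α R) := by
  intro p
  exact ((hθ p).sub (((hθ p).clm_apply (hR p)).smul (hα p))).congr
    fun y hy => cCov_thh θ α R hy

lemma continuous_ev {θ : M → Cov E} {R : M → E} (hθ : SmoothCov θ) (hR : SmoothVec R) :
    Continuous (fun x => ev (θ x) (R x)) := by
  rw [continuous_iff_continuousAt]
  intro p
  have h1 : ContinuousOn (fun y => cCov θ p y (cVec R p y)) (ch E p).target :=
    ((hθ p).clm_apply (hR p)).continuousOn
  have h2 : ContinuousOn (fun x => cCov θ p (ch E p x) (cVec R p (ch E p x))) (ch E p).source :=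
    h1.comp (continuousOn_extChartAt p) fun x hx => (ch E p).map_source hx
  have h3 : ContinuousOn (fun x => ev (θ x) (R x)) (ch E p).source := by
    refine h2.congr fun x hx => ?_
    show ev (θ x) (R x) = cCov θ p (ch E p x) (cVec R p (ch E p x))
    rw [cCov_cVec θ R ((ch E p).map_source hx), (ch E p).left_inv hx]
  exact h3.continuousAt (extChartAt_source_mem_nhds p)

end fields

/-! ### positivity -/

section pos

variable {M : Type v} [TopologicalSpace M] {I : C(M, ℝ) →ₗ[ℝ] ℝ}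

lemma I_nonneg (hI : ∀ f : C(M, ℝ), (∀ x, 0 ≤ f x) → (∃ x, f x ≠ 0) → 0 < I f) (f : C(M, ℝ))
    (h : ∀ x, 0 ≤ f x) : 0 ≤ I f := by
  by_cases h1 : ∃ x, f x ≠ 0
  · exact (hI f h h1).le
  · push Not at h1
    have h2 : f = 0 := by
      ext x
      exact h1 x
    rw [h2, map_zero]

lemma I_mono (hI : ∀ f : C(M, ℝ), (∀ x, 0 ≤ f x) → (∃ x, f x ≠ 0) → 0 < I f) {f g : C(M, ℝ)}
    (h : ∀ x, f x ≤ g x) : I f ≤ I g := by
  have h1 := I_nonneg hI (g - f) fun x => by
    rw [ContinuousMap.sub_apply]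
    linarith [h x]
  rw [map_sub] at h1
  linarith

end pos

/-- `c² / √(c² + ε)` -/
def kk {M : Type v} [TopologicalSpace M] (c : C(M, ℝ)) (ε : ℝ) (hε : 0 < ε) : C(M, ℝ) where
  toFun x := c x ^ 2 / Real.sqrt (c x ^ 2 + ε)
  continuous_toFun := by
    refine (c.continuous.pow 2).div ((c.continuous.pow 2).add continuous_const).sqrt fun x => ?_
    exact (Real.sqrt_pos.2 (by positivity)).ne'

theorem en (hDV : Pool.Agent.H75.LR.S_DV.{u, v}) (hLD : Pool.Agent.H75.LR.S_LD.{u})
    (hIN : Pool.Agent.H75.LR.S_IN.{v}) (hVF : Pool.Agent.H75.LR.S_VF.{u, v}) :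
    Pool.Agent.H75.LR.S_EN.{u, v} := by
  intro E _ _ _ n hn hn2 M _ _ _ _ _ _ α R hα hR haR hdR hnd W hW hWnd hWB Φ hΦ hΦ0 hΦa hΦs hΦW
    P hP hPP hPt hPR haP hPs θ hθ c hc hcΦ hdθ L hL hL' T δ hT hδ hLT
  classical
  -- the vector field `X`
  obtain ⟨X, hX, hWX⟩ := hVF E M W hW hWnd (thh θ α R) (smoothCov_thh hθ hα hR)
  have hWXc : ∀ p : M, ∀ z ∈ (ch E p).target, ∀ w,
      cBil W p z (cVec X p z) w = cCov θ p z w - cCov θ p z (cVec R p z) * cCov α p z w := by
    intro p z hz w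
    have h1 : cBil W p z (cVec X p z) w = cCov (thh θ α R) p z w := by
      rw [cBil_apply, cCov_apply, Dsy_cVec X hz]
      exact hWX _ _
    rw [h1, cCov_thh θ α R hz]
    rfl
  have hdd : ∀ (a : E → E →L[ℝ] ℝ) (z u w : E), dd a z u w = - dd a z w u := by
    intro a z u w
    unfold dd
    ring
  have haX : ∀ p : M, ∀ z ∈ (ch E p).target, cCov α p z (cVec X p z) = 0 := by
    intro p z hz
    have h1 := hWXc p z hz (cVec R p z)
    rw [hWB p z hz, BB_apply, hdd, hdR p z hz, haR p z hz] at h1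
    linarith
  have hdX : ∀ p : M, ∀ z ∈ (ch E p).target, ∀ w, dd (cCov α p) z (cVec X p z) w =
      cCov θ p z w - cCov θ p z (cVec R p z) * cCov α p z w := by
    intro p z hz w
    have h1 := hWXc p z hz w
    rw [hWB p z hz, BB_apply, haX p z hz] at h1
    linarith
  -- the two divergences
  set b := Module.finBasis ℝ E with hb
  have hLDc : ∀ p : M, ∀ z ∈ (ch E p).target,
      divE (fun y => dens b (cBil W p y) • cVec X p y) z = dens b (cBil W p z) *
        (c ((ch E p).symm z) - n * cCov θ p z (cVec R p z)) ∧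
      divE (fun y => dens b (cBil W p y) •
          (c ((ch E p).symm y) • (cVec X p y - cEnd P p y (cVec X p y)))) z =
        - (dens b (cBil W p z) * (((n : ℝ) - 1) * c ((ch E p).symm z) *
          cCov θ p z (cVec R p z))) := by
    intro p z hz
    have ho := isOpen_extChartAt_target (I := 𝓘(ℝ, E)) p
    have h1 := hLD E n hn (Fin (Module.finrank ℝ E)) b (ch E p).target ho (cCov α p) (hα p)
      (cVec R p) (hR p) (haR p) (hdR p) (hnd p) (cEnd P p) (hP p) (hPP p) (hPt p) (hPR p)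
      (haP p) (hPs p) (cCov θ p) (hθ p) (fun y => c ((ch E p).symm y)) (hc p) (hdθ p)
      (cVec X p) (hX p) (haX p) (hdX p) z hz
    have h2 : ∀ V : E → E, divE (fun y => dens b (cBil W p y) • V y) z =
        divE (fun y => dens b (BB (cCov α p) y) • V y) z := by
      intro V
      unfold divE
      rw [Filter.EventuallyEq.fderiv_eq]
      filter_upwards [ho.mem_nhds hz] with y hy
      rw [hWB p y hy]
    rw [h2, h2, hWB p z hz]
    exact h1
  -- the divergence theorem
  obtain ⟨XQ, hXQd⟩ : ∃ XQ : M → E, XQ = fun x => X x - P x (X x) := ⟨_, rfl⟩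
  have hXQ : SmoothVec XQ := hXQd ▸ smoothVec_sub_end hX hP
  have hXQc : ∀ p : M, ∀ z ∈ (ch E p).target,
      cVec XQ p z = cVec X p z - cEnd P p z (cVec X p z) := by
    intro p z hz
    rw [hXQd]
    exact cVec_sub_end P X hz
  obtain ⟨I, hIpos, hIinv, hIY⟩ := hDV E M (Fin (Module.finrank ℝ E)) b W hW hWnd
  obtain ⟨K, hK, hKX⟩ := hIY XQ hXQ
  have hI0 : ∀ f : C(M, ℝ), (∀ x, 0 ≤ f x) → 0 ≤ I f := I_nonneg hIpos
  obtain ⟨ρ, hρ⟩ : ∃ ρ : C(M, ℝ), ∀ x, ρ x = - ev (θ x) (R x) :=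
    ⟨⟨fun x => - ev (θ x) (R x), (continuous_ev hθ hR).neg⟩, fun x => rfl⟩
  have hρc : ∀ p : M, ∀ z ∈ (ch E p).target,
      cCov θ p z (cVec R p z) = - ρ ((ch E p).symm z) := by
    intro p z hz
    rw [hρ, cCov_cVec θ R hz, neg_neg]
  -- invariance
  have hIΦ : ∀ (t : ℝ) (F : C(M, M)), (∀ x, F x = Φ x t) → ∀ f : C(M, ℝ), I (f.comp F) = I f := by
    intro t F hF f
    have hF' : (F : M → M) = fun x => Φ x t := funext hF
    apply hIinv F
    · rw [hF']; exact hΦs t
    · constructor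
      · intro x y hxy
        rw [hF, hF] at hxy
        have h1 := hΦa x t (-t)
        have h2 := hΦa y t (-t)
        rw [add_neg_cancel, hΦ0] at h1 h2
        rw [h1, h2, hxy]
      · intro y
        refine ⟨Φ y (-t), ?_⟩
        rw [hF, ← hΦa, neg_add_cancel, hΦ0]
    · intro x u w
      rw [hF']
      exact hΦW t x u w
  have hint : ∀ k : C(M, ℝ), (∀ x, 0 ≤ k x) → (∀ x t, k (Φ x t) = k x) →
      δ / T * I k ≤ I (ρ * k) := by
    intro k hk hkΦ
    have h1 := hIN M Φ hΦ hΦ0 hΦa I hI0 hIΦ L hL ρ (fun x => by rw [hρ]; exact hL' x) k hkΦ T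
    have h2 : I (δ • k) ≤ I (L T * k) := by
      refine I_mono hIpos fun x => ?_
      rw [ContinuousMap.smul_apply, ContinuousMap.mul_apply, smul_eq_mul]
      exact mul_le_mul_of_nonneg_right (hLT x) (hk x)
    rw [map_smul, smul_eq_mul, h1] at h2
    rw [div_mul_eq_mul_div, div_le_iff₀ hT]
    linarith
  -- the estimate
  have hn1 : (0 : ℝ) < (n : ℝ) - 1 := by
    have : (2 : ℝ) ≤ n := by exact_mod_cast hn2
    linarith
  have hest : ∀ (ε : ℝ) (hε : 0 < ε), |I (((n : ℝ) - 1) • (ρ * kk c ε hε))| ≤ K * √ε := by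
    intro ε hε
    refine hKX (fun x => √(c x ^ 2 + ε) • XQ x) ?_ _ _ (Real.sqrt_nonneg ε) ?_
    · intro p
      have h1 : ContDiffOn ℝ ∞ (fun y => √(c ((ch E p).symm y) ^ 2 + ε)) (ch E p).target := by
        refine (((hc p).pow 2).add contDiffOn_const).sqrt fun y _ => ?_
        positivity
      have h2 : ContDiffOn ℝ ∞ (cVec (fun x => √(c x ^ 2 + ε) • XQ x) p) (ch E p).target :=
        (h1.smul (hXQ p)).congr fun y _ => cVec_smul _ _ _ _
      exact h2.of_le (by exact_mod_cast le_top)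
    · intro p z hz
      have ho := isOpen_extChartAt_target (I := 𝓘(ℝ, E)) p
      set V : E → E := fun y => dens b (cBil W p y) • cVec XQ p y with hV
      have hρz := hρc p z hz
      have h1 : divE (fun y => dens b (cBil W p y) •
          cVec (fun x => √(c x ^ 2 + ε) • XQ x) p y) z =
          divE (fun y => √(c ((ch E p).symm y) ^ 2 + ε) • V y) z := by
        congr 1
        funext y
        rw [cVec_smul, hV, smul_comm]
      have h2 : divE (fun y => c ((ch E p).symm y) • V y) z =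
          dens b (cBil W p z) * (((n : ℝ) - 1) * c ((ch E p).symm z) * ρ ((ch E p).symm z)) := by
        have h3 := (hLDc p z hz).2
        rw [hρz] at h3
        have h4 : divE (fun y => c ((ch E p).symm y) • V y) z =
            divE (fun y => dens b (cBil W p y) •
              (c ((ch E p).symm y) • (cVec X p y - cEnd P p y (cVec X p y)))) z := by
          unfold divE
          rw [Filter.EventuallyEq.fderiv_eq]
          filter_upwards [ho.mem_nhds hz] with y hy
          rw [hV, ← hXQc p y hy, smul_comm]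
        rw [h4, h3]
        ring
      have hcd : DifferentiableAt ℝ (fun y => c ((ch E p).symm y)) z :=
        ((hc p).contDiffAt (ho.mem_nhds hz)).differentiableAt (by simp)
      have hVd : DifferentiableAt ℝ V z :=
        (((Pool.Agent.H15.LR.contDiffOn_rho b hW hWnd).smul (hXQ p)).contDiffAt
          (ho.mem_nhds hz)).differentiableAt (by simp)
      rw [h1, loc hε hcd hVd h2]
      have h5 : (((n : ℝ) - 1) • (ρ * kk c ε hε)) ((ch E p).symm z) =
          ((n : ℝ) - 1) * (ρ ((ch E p).symm z) *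
            (c ((ch E p).symm z) ^ 2 / √(c ((ch E p).symm z) ^ 2 + ε))) := rfl
      rw [h5, add_sub_cancel_left, abs_mul]
      refine mul_le_mul_of_nonneg_right ?_ (abs_nonneg _)
      have hpos : 0 < √(c ((ch E p).symm z) ^ 2 + ε) := Real.sqrt_pos.2 (by positivity)
      rw [abs_of_nonneg (by positivity), div_le_iff₀ hpos]
      calc ε = √ε * √ε := (Real.mul_self_sqrt hε.le).symm
        _ ≤ √ε * √(c ((ch E p).symm z) ^ 2 + ε) := by
          refine mul_le_mul_of_nonneg_left ?_ (Real.sqrt_nonneg ε)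
          exact Real.sqrt_le_sqrt (by nlinarith [sq_nonneg (c ((ch E p).symm z))])
  have hkk0 : ∀ (ε : ℝ) (hε : 0 < ε) (x : M), 0 ≤ kk c ε hε x := by
    intro ε hε x
    show 0 ≤ c x ^ 2 / √(c x ^ 2 + ε)
    positivity
  have hkkΦ : ∀ (ε : ℝ) (hε : 0 < ε) (x : M) (t : ℝ), kk c ε hε (Φ x t) = kk c ε hε x := by
    intro ε hε x t
    show c (Φ x t) ^ 2 / √(c (Φ x t) ^ 2 + ε) = c x ^ 2 / √(c x ^ 2 + ε)
    rw [hcΦ]
  have hkk1 : ∀ (ε : ℝ) (hε : 0 < ε), ε ≤ 1 → ∀ x : M, kk c 1 one_pos x ≤ kk c ε hε x := by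
    intro ε hε h1 x
    show c x ^ 2 / √(c x ^ 2 + 1) ≤ c x ^ 2 / √(c x ^ 2 + ε)
    have hpos : 0 < √(c x ^ 2 + ε) := Real.sqrt_pos.2 (by positivity)
    refine div_le_div_of_nonneg_left (sq_nonneg _) hpos ?_
    exact Real.sqrt_le_sqrt (by linarith)
  have hI1 : ∀ (ε : ℝ), 0 < ε → ε ≤ 1 →
      ((n : ℝ) - 1) * (δ / T) * I (kk c 1 one_pos) ≤ K * √ε := by
    intro ε hε h1
    have h2 := hest ε hε
    rw [map_smul, smul_eq_mul, abs_mul, abs_of_pos hn1] at h2
    have h3 := hint (kk c ε hε) (hkk0 ε hε) (hkkΦ ε hε)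
    have h4 : I (kk c 1 one_pos) ≤ I (kk c ε hε) := I_mono hIpos (hkk1 ε hε h1)
    have h5 : 0 < δ / T := div_pos hδ hT
    calc ((n : ℝ) - 1) * (δ / T) * I (kk c 1 one_pos)
        ≤ ((n : ℝ) - 1) * (δ / T) * I (kk c ε hε) :=
          mul_le_mul_of_nonneg_left h4 (by positivity)
      _ = ((n : ℝ) - 1) * (δ / T * I (kk c ε hε)) := by ring
      _ ≤ ((n : ℝ) - 1) * |I (ρ * kk c ε hε)| :=
          mul_le_mul_of_nonneg_left (h3.trans (le_abs_self _)) hn1.le
      _ ≤ K * √ε := h2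
  have hI2 : ((n : ℝ) - 1) * (δ / T) * I (kk c 1 one_pos) ≤ 0 := by
    have h1 : Tendsto (fun ε : ℝ => K * √ε) (𝓝[>] 0) (𝓝 (K * √0)) :=
      ((Real.continuous_sqrt.tendsto 0).const_mul K).mono_left nhdsWithin_le_nhds
    rw [Real.sqrt_zero, mul_zero] at h1
    refine ge_of_tendsto h1 ?_
    filter_upwards [Ioc_mem_nhdsGT (one_pos : (0:ℝ) < 1)] with ε hε
    exact hI1 ε hε.1 hε.2
  have hc0 : ∀ x, c x = 0 := by
    by_contra h1
    push Not at h1
    obtain ⟨x, hx⟩ := h1
    have h2 : 0 < I (kk c 1 one_pos) := by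
      refine hIpos _ (hkk0 1 one_pos) ⟨x, ?_⟩
      show c x ^ 2 / √(c x ^ 2 + 1) ≠ 0
      positivity
    have h5 : 0 < δ / T := div_pos hδ hT
    have h6 : 0 < ((n : ℝ) - 1) * (δ / T) * I (kk c 1 one_pos) := by positivity
    linarith
  -- the end
  have h1 : |I ((n : ℝ) • ρ)| ≤ K * 0 := by
    refine hKX X (fun p => (hX p).of_le (by exact_mod_cast le_top)) _ 0 le_rfl ?_
    intro p z hz
    have h2 := (hLDc p z hz).1
    rw [hc0, hρc p z hz] at h2
    rw [h2, zero_mul]
    refine le_of_eq ?_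
    rw [abs_eq_zero]
    show _ - dens b (cBil W p z) * ((n : ℝ) * ρ ((ch E p).symm z)) = 0
    ring
  rw [mul_zero] at h1
  have h2 : I ((n : ℝ) • ρ) = 0 := abs_eq_zero.1 (le_antisymm h1 (abs_nonneg _))
  rw [map_smul, smul_eq_mul] at h2
  have hn0 : (n : ℝ) ≠ 0 := by
    have : (2 : ℝ) ≤ n := by exact_mod_cast hn2
    linarith
  have h3 : I ρ = 0 := (mul_eq_zero.1 h2).resolve_left hn0
  have h4 := hint 1 (fun x => zero_le_one) (fun x t => rfl)
  rw [mul_one, h3] at h4
  have h5 : 0 < I 1 := hIpos 1 (fun x => zero_le_one) ⟨Classical.arbitrary M, one_ne_zero⟩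
  have h6 : 0 < δ / T * I 1 := mul_pos (div_pos hδ hT) h5
  linarith

end Pool.Agent.H61.LR
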